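import Pool.Agent.H94.ND.SP3

/-!
# (SP1) the sections of a smooth curve as numerators with one denominator
-/

set_option autoImplicit false

namespace Pool.Agent.H94.ND

open MvPolynomial SC Pool.Agent.H27.LV Pool.Agent.H84.SM Pool.Agent.H84.ND Pool.Agent.H60.SM

theorem sec_shift {k : Type} [Field k] {G : MvPolynomial (Fin 3) k} (hG : G ≠ 0) (M j : ℕ)
    (N : R2 k) : sec G (M + j) (gR G ^ j * N) = sec G M N := by
  unfold sec gR
  rw [Polynomial.map_mul, Polynomial.map_pow, Polynomial.map_C, ← Polynomial.C_pow, ← mul_assoc,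
    ← Polynomial.C_mul]
  have h0 := gF_ne hG
  have h1 : (gF G ^ (M + j))⁻¹ * (algebraMap (A2 k) (F2 k) (gA G)) ^ j = (gF G ^ M)⁻¹ := by
    show (gF G ^ (M + j))⁻¹ * gF G ^ j = (gF G ^ M)⁻¹
    rw [pow_add, mul_inv, mul_assoc, inv_mul_cancel₀ (pow_ne_zero _ h0), mul_one]
  rw [h1]

theorem pf_SP1 (hEUB : Pool.Agent.H84.SM.T_EUB) (hEME : Pool.Agent.H84.SM.T_EME)
    (hMUG : Pool.Agent.H84.SM.T_MUG) (hIRR : Pool.Agent.H84.SM.T_IRR) : T_SP1 := by
  intro k _ _ _ G d hd hS n τ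
  have hirr := hIRR k G d (by omega) hS
  have hG0 : G ≠ 0 := hirr.ne_zero
  have hG : G.IsHomogeneous d := hS.1
  have hfin := (hEUB k G d hd hS hirr n τ).1
  obtain ⟨S, hSp⟩ := (Submodule.fg_iff_finiteDimensional (E G d n τ)).2 hfin
  have hex : ∀ Q ∈ S, ∃ M N, IsSec G d n τ M N ∧ Q = sec G M N := fun Q hQ =>
    (hEME k G d (by omega) hG hG0 n τ Q).1 (hSp ▸ Submodule.subset_span hQ)
  choose! m N hm hN using hex
  set M : ℕ := S.sup m + n + τ.natAbs with hM
  have he0 : 0 ≤ τ - n + d * (M : ℤ) := by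
    have h1 : (M : ℤ) ≤ d * (M : ℤ) := by
      have : (1 : ℤ) ≤ d := by exact_mod_cast (by omega : 1 ≤ d)
      nlinarith [Int.natCast_nonneg M]
    have h2 : (n : ℤ) + τ.natAbs ≤ M := by
      rw [hM]
      push_cast
      linarith [Int.natCast_nonneg (S.sup m)]
    have h3 : -τ ≤ τ.natAbs := by omega
    omega
  obtain ⟨e, he⟩ := Int.eq_ofNat_of_zero_le he0
  refine ⟨M, e, he.symm, ?_⟩
  have hW := ws_finite G d e n M
  have hle : E G d n τ ≤ (WS G d e n M).map (secL G M) := by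
    rw [← hSp, Submodule.span_le]
    intro Q hQ
    rw [hN Q hQ]
    by_cases h0 : N Q = 0
    · refine ⟨0, Submodule.zero_mem _, ?_⟩
      rw [map_zero, h0]
      unfold sec
      rw [Polynomial.map_zero, mul_zero]
    · have h1 : m Q ≤ M := (Finset.le_sup hQ).trans (by omega)
      obtain ⟨j, hj⟩ := Nat.exists_eq_add_of_le h1
      refine ⟨gR G ^ j * N Q, ?_, ?_⟩
      · rw [SetLike.mem_coe, mem_WS he.symm, hj]
        exact (hMUG k G d hd hS hirr n (m Q) j τ (N Q) h0).1.1 (hm Q hQ)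
      · rw [secL_apply, hj, sec_shift hG0]
  calc Module.finrank k (E G d n τ)
      ≤ Module.finrank k ((WS G d e n M).map (secL G M)) := Submodule.finrank_mono hle
    _ ≤ Module.finrank k (WS G d e n M) := Submodule.finrank_map_le _ _

end Pool.Agent.H94.ND
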