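import Pool.Agent.H84.ND.Targets1
import Pool.Agent.H60.SM.BDM

/-!
# (SP3) sections with a given denominator
-/

set_option autoImplicit false

namespace Pool.Agent.H94.ND

open MvPolynomial SC Pool.Agent.H27.LV Pool.Agent.H84.SM Pool.Agent.H84.ND Pool.Agent.H60.SM

variable {k : Type} [Field k]

/-- the section `N / G ^ M` as a linear map in `N` -/
noncomputable def secL (G : MvPolynomial (Fin 3) k) (M : ℕ) : R2 k →ₗ[k] Polynomial (F2 k) :=
  (LinearMap.mulLeft k (Polynomial.C ((gF G ^ M)⁻¹) : Polynomial (F2 k))) ∘ₗ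
    (Polynomial.mapAlgHom (IsScalarTower.toAlgHom k (A2 k) (F2 k))).toLinearMap

theorem secL_apply (G : MvPolynomial (Fin 3) k) (M : ℕ) (N : R2 k) :
    secL G M N = sec G M N := rfl

theorem secL_injective {G : MvPolynomial (Fin 3) k} (hG : G ≠ 0) (M : ℕ) :
    Function.Injective (secL G M) := by
  intro N N' h
  rw [secL_apply, secL_apply] at h
  unfold sec at h
  have h0 : (Polynomial.C ((gF G ^ M)⁻¹) : Polynomial (F2 k)) ≠ 0 := by
    rw [Ne, Polynomial.C_eq_zero]
    exact inv_ne_zero (pow_ne_zero _ (gF_ne hG))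
  exact Polynomial.map_injective _ (IsFractionRing.injective (A2 k) (F2 k)) (mul_left_cancel₀ h0 h)

theorem mem_WS {G : MvPolynomial (Fin 3) k} {d e n M : ℕ} {τ : ℤ} (he : (e : ℤ) = τ - n + d * M)
    (N : R2 k) : N ∈ WS G d e n M ↔ IsSec G d n τ M N := by
  constructor
  · rintro ⟨h1, h2, h3⟩
    exact ⟨h1, ⟨e, he, h2⟩, h3⟩
  · rintro ⟨h1, ⟨e', he', h2⟩, h3⟩
    have : e' = e := by
      have : (e' : ℤ) = e := by rw [he, he']
      exact_mod_cast this
    subst this
    exact ⟨h1, h2, h3⟩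

theorem ws_finite (G : MvPolynomial (Fin 3) k) (d e n M : ℕ) :
    Module.Finite k (WS G d e n M) := by
  let φ : WS G d e n M →ₗ[k] ((j : Fin (n + 1)) →
      restrictSupport k (bset e (n - 3 * (j : ℕ)))) :=
    LinearMap.pi fun j => LinearMap.codRestrict (restrictSupport k (bset e (n - 3 * (j : ℕ))))
      (((Polynomial.lcoeff (A2 k) (j : ℕ)).restrictScalars k) ∘ₗ (WS G d e n M).subtype)
      (fun N => by
        show ((N : R2 k).coeff j) ∈ _
        by_cases hj : 3 * (j : ℕ) ≤ n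
        · exact (bh_iff _ _ _).1 ((N.2.2.1 j).1 hj)
        · rw [(N.2.2.1 j).2 (by omega)]
          exact Submodule.zero_mem _)
  refine Module.Finite.of_injective φ ?_
  intro N N' h
  refine Subtype.ext (Polynomial.ext fun j => ?_)
  by_cases hj : j < n + 1
  · have h1 := congrFun h ⟨j, hj⟩
    exact congrArg Subtype.val h1
  · rw [(N.2.2.1 j).2 (by omega), (N'.2.2.1 j).2 (by omega)]

theorem pf_SP3 : T_SP3 := by
  intro k _ _ _ G d hd hG hG0 n τ M e he hfin
  refine ⟨(WS G d e n M).map (secL G M), ?_, inferInstance, ?_⟩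
  · rintro _ ⟨N, hN, rfl⟩
    exact Submodule.subset_span ⟨M, N, (mem_WS he N).1 hN, rfl⟩
  · exact (LinearEquiv.finrank_eq (Submodule.equivMapOfInjective (secL G M)
      (secL_injective hG0 M) (WS G d e n M))).le

end Pool.Agent.H94.ND
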