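import Pool.Agent.H76.ND.Targets2

/-!
# Module RGA of part D of MP_57ddd5_pr: crude regularity of near geodesics
-/

open MeasureTheory ProbabilityTheory
open scoped ENNReal

namespace Pool.Agent.H94.ND

open Pool.Agent.H99.NS Pool.Agent.H22.LPP Pool.Agent.H95.INS Pool.Agent.H76.ND

/-- Displacement bounds for all pairs of times at distance at least `L` give bounds for all
pairs of times. -/
theorem case2 {γ : ℤ → ℤ} {N L : ℤ} {B : ℝ} (hB : 0 ≤ B) (_hL : 0 < L) (hLN : L ≤ N)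
    (h : ∀ S : ℤ, 0 ≤ S → S + L ≤ N → |((γ (S + L) - γ S : ℤ) : ℝ)| ≤ B ∧
      ∀ r : ℤ, S < r → r < S + L →
        |((γ r - γ S : ℤ) : ℝ) - ((γ (S + L) - γ S : ℤ) : ℝ) * ((r - S : ℤ) : ℝ) /
          ((S + L - S : ℤ) : ℝ)| ≤ B)
    {s t : ℤ} (h0 : 0 ≤ s) (hst : s ≤ t) (hts : t - s ≤ L) (htN : t ≤ N) :
    |((γ t - γ s : ℤ) : ℝ)| ≤ 4 * B := by
  obtain ⟨S, hS0, hSN, hSs, htT⟩ : ∃ S : ℤ, 0 ≤ S ∧ S + L ≤ N ∧ S ≤ s ∧ t ≤ S + L := by
    refine ⟨min s (N - L), le_min h0 (by omega), ?_, min_le_left _ _, ?_⟩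
    · have := min_le_right s (N - L)
      omega
    · rcases le_total s (N - L) with h1 | h1
      · rw [min_eq_left h1]; omega
      · rw [min_eq_right h1]; omega
  obtain ⟨h1, h2⟩ := h S hS0 hSN
  have key : ∀ r : ℤ, S ≤ r → r ≤ S + L → |((γ r - γ S : ℤ) : ℝ)| ≤ 2 * B := by
    intro r hr1 hr2
    rcases eq_or_lt_of_le hr1 with h3 | h3
    · rw [← h3]; simp; positivity
    rcases eq_or_lt_of_le hr2 with h4 | h4
    · rw [h4]; linarith
    have h5 := h2 r h3 h4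
    have hLr : (0 : ℝ) < ((S + L - S : ℤ) : ℝ) := by
      have : (0 : ℤ) < S + L - S := by omega
      exact_mod_cast this
    have h6 : |((γ (S + L) - γ S : ℤ) : ℝ) * ((r - S : ℤ) : ℝ) / ((S + L - S : ℤ) : ℝ)| ≤ B := by
      rw [mul_div_assoc, abs_mul]
      have h7 : |((r - S : ℤ) : ℝ) / ((S + L - S : ℤ) : ℝ)| ≤ 1 := by
        rw [abs_of_nonneg]
        · rw [div_le_one hLr]
          have : r - S ≤ S + L - S := by omega
          exact_mod_cast this
        · apply div_nonneg _ hLr.le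
          have : (0 : ℤ) ≤ r - S := by omega
          exact_mod_cast this
      calc |((γ (S + L) - γ S : ℤ) : ℝ)| * |((r - S : ℤ) : ℝ) / ((S + L - S : ℤ) : ℝ)|
          ≤ |((γ (S + L) - γ S : ℤ) : ℝ)| * 1 := mul_le_mul_of_nonneg_left h7 (abs_nonneg _)
        _ ≤ B := by rw [mul_one]; exact h1
    rw [abs_le] at h5 h6 ⊢
    constructor <;> linarith only [h5.1, h5.2, h6.1, h6.2, h5, h6]
  have h3 := key s hSs (by omega)
  have h4 := key t (by omega) htT
  have h5 : ((γ t - γ s : ℤ) : ℝ) = ((γ t - γ S : ℤ) : ℝ) - ((γ s - γ S : ℤ) : ℝ) := by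
    push_cast; ring
  rw [h5]
  rw [abs_le] at h3 h4 ⊢
  constructor <;> linarith [h3.1, h3.2, h4.1, h4.2]

theorem rp_two_thirds {x y : ℝ} (hx : 0 ≤ x) (hy : 0 ≤ y) (h : x ^ 2 ≤ y ^ 3) :
    x ^ (2 / 3 : ℝ) ≤ y := by
  have h1 : x ^ (2 / 3 : ℝ) = (x ^ 2) ^ (1 / 3 : ℝ) := by
    rw [← Real.rpow_natCast x 2, ← Real.rpow_mul hx]; norm_num
  have h2 : y = (y ^ 3) ^ (1 / 3 : ℝ) := by
    rw [← Real.rpow_natCast y 3, ← Real.rpow_mul hy]; norm_num
  rw [h1, h2]
  exact Real.rpow_le_rpow (by positivity) h (by norm_num)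

theorem pf_RGA (h_REG : B_REG) : T_RGA := by
  intro q c0 G hq0 hq1 hc0 hc1 hG
  obtain ⟨A, hA, hREG⟩ := h_REG q hq0 hq1
  obtain ⟨n₀, hn₀⟩ := hREG 2 (c0 / 100) (c0 / 100) (c0 / 100) (by norm_num) (by positivity)
    (by positivity) (by positivity) le_rfl le_rfl
  set κ : ℝ := c0 / 100 with hκ
  have hκ0 : 0 < κ := by positivity
  have hlim : Filter.Tendsto (fun n : ℕ => (n : ℝ) ^ κ) Filter.atTop Filter.atTop :=
    (tendsto_rpow_atTop hκ0).comp tendsto_natCast_atTop_atTop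
  obtain ⟨n₁, hn₁⟩ := Filter.eventually_atTop.1
    (hlim.eventually_ge_atTop (max (max (2 * G) 2) (21 * A + 1)))
  refine ⟨max n₀ (max n₁ 1), ?_⟩
  intro N o e ω a hN hEP hCr hca haN g hg
  have hNn₀ : n₀ ≤ N := le_trans (le_max_left _ _) hN
  have hNn₁ : n₁ ≤ N := le_trans (le_trans (le_max_left _ _) (le_max_right _ _)) hN
  have hN1 : 1 ≤ N := le_trans (le_trans (le_max_right _ _) (le_max_right _ _)) hN
  have hNr : (1 : ℝ) ≤ (N : ℝ) := by exact_mod_cast hN1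
  set K : ℝ := (N : ℝ) ^ κ with hK
  have hKb := hn₁ N hNn₁
  have hKG : 2 * G ≤ K := le_trans (le_trans (le_max_left _ _) (le_max_left _ _)) hKb
  have hK2 : 2 ≤ K := le_trans (le_trans (le_max_right _ _) (le_max_left _ _)) hKb
  have hKA : 21 * A + 1 ≤ K := le_trans (le_max_right _ _) hKb
  -- powers
  have hK13 : (N : ℝ) ^ (13 * κ) = K ^ 13 := by
    rw [hK, ← Real.rpow_natCast, ← Real.rpow_mul (by positivity)]
    congr 1
    push_cast
    ring
  have hK100 : (N : ℝ) ^ c0 = K ^ 100 := by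
    rw [hK, ← Real.rpow_natCast, ← Real.rpow_mul (by positivity)]
    congr 1
    rw [hκ]
    push_cast
    ring
  have hKsq : (N : ℝ) ^ (c0 / 50) = K ^ 2 := by
    rw [hK, ← Real.rpow_natCast, ← Real.rpow_mul (by positivity)]
    congr 1
    rw [hκ]
    push_cast
    ring
  have hXn : 21 * A * K ≤ (Xn c0 N : ℝ) := by
    unfold Xn
    rw [hKsq]
    have := Int.sub_one_lt_floor (K ^ 2)
    nlinarith only [hK2, hc1, this, hG, hKA, hκ, hκ0, hKG]
  have h13 : (N : ℝ) ^ (13 * κ) ≤ 64 ^ a / 8 := by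
    rw [hK13]
    rw [hK100] at hca
    have h1 : K ^ 100 = K ^ 13 * K ^ 87 := by ring
    have h2 : (8 : ℝ) ≤ K ^ 87 := by
      calc (8 : ℝ) = 2 ^ 3 := by norm_num
        _ ≤ 2 ^ 87 := by norm_num
        _ ≤ K ^ 87 := by gcongr
    have h3 : 0 < K ^ 13 := by positivity
    have h4 : K ^ 13 * 8 ≤ K ^ 13 * K ^ 87 := mul_le_mul_of_nonneg_left h2 h3.le
    rw [← h1] at h4
    linarith
  have ha1 : 1 ≤ a := by
    by_contra h0
    have h0' : a = 0 := by omega
    rw [h0', hK100] at hca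
    have : (2 : ℝ) ^ 100 ≤ K ^ 100 := by gcongr
    norm_num at hca this
    linarith
  obtain ⟨b, rfl⟩ : ∃ b, a = b + 1 := ⟨a - 1, by omega⟩
  -- the shifted path
  set γ : ℤ → ℤ := fun r => g (r + o.1) - o.2 with hγ
  obtain ⟨hgc, hgw⟩ := hg
  have hEn : e.1 = o.1 + N := by have := hEP.n; omega
  have hconn : Conn (0, 0) ((N : ℤ), e.2 - o.2) γ := by
    refine ⟨?_, ?_, ?_⟩
    · intro r h1 h2
      simp only at h1 h2
      have := hgc.1 (r + o.1) (by omega) (by omega)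
      simp only [hγ]
      rw [show r + 1 + o.1 = r + o.1 + 1 by ring]
      omega
    · simp only [hγ]
      rw [zero_add, hgc.2.1]; ring
    · simp only [hγ]
      rw [show (N : ℤ) + o.1 = e.1 by omega, hgc.2.2]
  have hT : T (shiftE o ω) (0, 0) ((N : ℤ), e.2 - o.2) = T ω o e := by
    rw [T_shift]
    congr 1
    · simp
    · apply Prod.ext
      · simp only [Prod.fst_add]; omega
      · simp only [Prod.snd_add]; ring
  have hW : wt (shiftE o ω) 0 N γ = wt ω o.1 e.1 g := by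
    rw [wt_shift, zero_add, show (N : ℤ) + o.1 = e.1 by omega]
    congr 1
    funext r
    simp only [hγ, sub_add_cancel]
  have hreach : Reach (0, 0) ((N : ℤ), e.2 - o.2) := by
    have := hEP.r
    unfold Reach at this ⊢
    simp only [sub_zero]
    rw [hEn] at this
    rw [show o.1 + (N : ℤ) - o.1 = N by ring] at this
    exact this
  have hyb : |((e.2 - o.2 : ℤ) : ℝ)| ≤ ((N : ℤ) : ℝ) ^ (2 / 3 + κ) := by
    have h1 := hEP.d
    unfold dx at h1
    refine le_trans h1 ?_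
    rw [Int.cast_natCast]
    exact Real.rpow_le_rpow_of_exponent_le hNr (by linarith)
  have hREG' := hn₀ N hNn₀ (shiftE o ω) hCr N (e.2 - o.2) (by exact_mod_cast hN1) le_rfl hyb
    hreach γ hconn (G * 4 ^ (b + 1)) (by positivity) (by rw [hT, hW]; exact hgw)
  -- regularity for distances at least `64 ^ a / 8`
  have hreg : ∀ s t : ℤ, 0 ≤ s → s < t → t ≤ N → (64 : ℝ) ^ (b + 1) / 8 ≤ ((t - s : ℤ) : ℝ) →
      |((γ t - γ s : ℤ) : ℝ)| ≤ A * K * ((t - s : ℤ) : ℝ) ^ (2 / 3 : ℝ) ∧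
      ∀ r : ℤ, s < r → r < t →
        |((γ r - γ s : ℤ) : ℝ) - ((γ t - γ s : ℤ) : ℝ) * ((r - s : ℤ) : ℝ) / ((t - s : ℤ) : ℝ)| ≤
          A * K * ((t - s : ℤ) : ℝ) ^ (2 / 3 : ℝ) := by
    intro s t hs hst htN hd
    have hd0 : (0 : ℝ) ≤ ((t - s : ℤ) : ℝ) := le_trans (by positivity) hd
    have hthird : (4 : ℝ) ^ (b + 1) / 2 ≤ ((t - s : ℤ) : ℝ) ^ (1 / 3 : ℝ) := by
      have h1 : ((4 : ℝ) ^ (b + 1) / 2) = (((4 : ℝ) ^ (b + 1) / 2) ^ 3) ^ (1 / 3 : ℝ) := by
        rw [← Real.rpow_natCast ((4 : ℝ) ^ (b + 1) / 2) 3, ← Real.rpow_mul (by positivity)]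
        norm_num
      rw [h1]
      refine Real.rpow_le_rpow (by positivity) ?_ (by norm_num)
      refine le_trans (le_of_eq ?_) hd
      rw [div_pow, ← pow_mul, mul_comm (b + 1) 3, pow_mul]
      norm_num
    obtain ⟨h1, h2⟩ := hREG' s t hs hst htN (le_trans h13 hd) (by
      have h3 : K * ((4 : ℝ) ^ (b + 1) / 2) ≤ K * ((t - s : ℤ) : ℝ) ^ (1 / 3 : ℝ) :=
        mul_le_mul_of_nonneg_left hthird (by positivity)
      refine le_trans ?_ h3
      have h4 : G * 4 ^ (b + 1) ≤ K / 2 * 4 ^ (b + 1) :=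
        mul_le_mul_of_nonneg_right (by linarith) (by positivity)
      linarith)
    refine ⟨h1, fun r hr1 hr2 => le_trans (h2 r hr1 hr2) ?_⟩
    have h3 : (N : ℝ) ^ (κ / 2) ≤ K := Real.rpow_le_rpow_of_exponent_le hNr (by linarith)
    gcongr
  -- the main estimate, ordered times
  have main : ∀ (s t : ℤ) (i : ℕ), b + 1 ≤ i → 0 ≤ s → s ≤ t → t ≤ N → t - s ≤ 33 * 64 ^ i →
      2 * |((γ t - γ s : ℤ) : ℝ)| ≤ 21 * A * K * 16 ^ i := by
    intro s t i hi hs hst htN hd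
    rcases le_or_gt ((64 : ℝ) ^ (b + 1) / 8) ((t - s : ℤ) : ℝ) with h1 | h1
    · have hst' : s < t := by
        have h2 : (0 : ℝ) < ((t - s : ℤ) : ℝ) := lt_of_lt_of_le (by positivity) h1
        have h3 : (0 : ℤ) < t - s := by exact_mod_cast h2
        omega
      have h2 := (hreg s t hs hst' htN h1).1
      have h3 : ((t - s : ℤ) : ℝ) ^ (2 / 3 : ℝ) ≤ 21 / 2 * 16 ^ i := by
        refine rp_two_thirds (le_trans (by positivity) h1) (by positivity) ?_
        have h4 : ((t - s : ℤ) : ℝ) ≤ 33 * 64 ^ i := by exact_mod_cast hd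
        have h5 : ((t - s : ℤ) : ℝ) ^ 2 ≤ (33 * 64 ^ i) ^ 2 :=
          pow_le_pow_left₀ (le_trans (by positivity) h1) h4 2
        refine le_trans h5 ?_
        have h6 : ((64 : ℝ) ^ i) ^ 2 = ((16 : ℝ) ^ i) ^ 3 := by
          rw [← pow_mul, ← pow_mul, mul_comm i 2, mul_comm i 3, pow_mul, pow_mul]
          norm_num
        rw [mul_pow, mul_pow, h6]
        have h7 : (0 : ℝ) ≤ ((16 : ℝ) ^ i) ^ 3 := by positivity
        nlinarith only [h6]
      have h4 : A * K * ((t - s : ℤ) : ℝ) ^ (2 / 3 : ℝ) ≤ A * K * (21 / 2 * 16 ^ i) :=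
        mul_le_mul_of_nonneg_left h3 (by positivity)
      linarith
    · -- short distances
      set L : ℤ := 8 * 64 ^ b with hL
      have hLr : (L : ℝ) = 64 ^ (b + 1) / 8 := by
        rw [hL]; push_cast; rw [pow_succ]; ring
      have hLpos : 0 < L := by positivity
      have hLN : L ≤ (N : ℤ) := by
        have h2 : (L : ℝ) ≤ ((N : ℤ) : ℝ) := by
          rw [hLr, Int.cast_natCast]
          have h3 : (0 : ℝ) ≤ 64 ^ (b + 1) := by positivity
          have h4 : ((64 : ℝ) ^ (b + 1)) ≤ (N : ℝ) := by exact_mod_cast haN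
          linarith only [hc1, hκ, hκ0, hNr, h4]
        exact_mod_cast h2
      have hL23 : (L : ℝ) ^ (2 / 3 : ℝ) ≤ 16 ^ (b + 1) / 4 := by
        refine rp_two_thirds (by positivity) (by positivity) (le_of_eq ?_)
        rw [hLr, div_pow, div_pow, ← pow_mul, ← pow_mul, mul_comm (b + 1) 2, mul_comm (b + 1) 3,
          pow_mul, pow_mul]
        norm_num
      have hc2 := case2 (γ := γ) (N := (N : ℤ)) (L := L) (B := A * K * (16 ^ (b + 1) / 4))
        (by positivity) hLpos hLN (by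
          intro S hS0 hSN
          have e1 : ((S + L - S : ℤ) : ℝ) = (L : ℝ) := by push_cast; ring
          obtain ⟨h2, h3⟩ := hreg S (S + L) hS0 (by omega) hSN (by rw [e1, hLr])
          have h4 : A * K * ((S + L - S : ℤ) : ℝ) ^ (2 / 3 : ℝ) ≤ A * K * (16 ^ (b + 1) / 4) := by
            rw [e1]; exact mul_le_mul_of_nonneg_left hL23 (by positivity)
          exact ⟨le_trans h2 h4, fun r hr1 hr2 => le_trans (h3 r hr1 hr2) h4⟩)
        (s := s) (t := t) hs hst (by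
          have h2 : ((t - s : ℤ) : ℝ) ≤ (L : ℝ) := by rw [hLr]; exact h1.le
          exact_mod_cast h2) htN
      have h16 : (16 : ℝ) ^ (b + 1) ≤ 16 ^ i := pow_le_pow_right₀ (by norm_num) hi
      have h5 : A * K * 16 ^ (b + 1) ≤ A * K * 16 ^ i :=
        mul_le_mul_of_nonneg_left h16 (by positivity)
      have h6 : 0 ≤ A * K * 16 ^ i := by positivity
      have h7 : 4 * (A * K * (16 ^ (b + 1) / 4)) = A * K * (16 : ℝ) ^ (b + 1) := by ring
      rw [h7] at hc2
      have h8 : 21 * A * K * (16 : ℝ) ^ i = 21 * (A * K * 16 ^ i) := by ring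
      rw [h8]
      linarith only [hc2, h5, h6]
  -- conclusion
  intro s t i hi hs1 hs2 ht1 ht2 hd
  have fin : ∀ s t : ℤ, s ≤ t → o.1 ≤ s → t ≤ e.1 → t - s ≤ 33 * 64 ^ i →
      2 * |g t - g s| ≤ Xn c0 N * 16 ^ i := by
    intro s t hst h1 h2 h3
    have h4 := main (s - o.1) (t - o.1) i hi (by omega) (by omega) (by omega) (by omega)
    have e1 : γ (t - o.1) - γ (s - o.1) = g t - g s := by
      simp only [hγ, sub_add_cancel]; ring
    rw [e1] at h4
    have h5 : 21 * A * K * 16 ^ i ≤ (Xn c0 N : ℝ) * 16 ^ i :=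
      mul_le_mul_of_nonneg_right hXn (by positivity)
    have h6 := le_trans h4 h5
    exact_mod_cast h6
  rcases le_total s t with h1 | h1
  · exact fin s t h1 hs1 ht2 (le_trans (le_abs_self _) hd)
  · rw [abs_sub_comm]
    exact fin t s h1 ht1 hs2 (by rw [abs_sub_comm] at hd; exact le_trans (le_abs_self _) hd)

end Pool.Agent.H94.ND
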